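import Mathlib

/-! Chains `n, 2 n + 1, 4 n + 3, ...`: elementary facts. -/

set_option autoImplicit false

namespace Pool.Agent.W5h28.CC

open Finset Filter Topology

/-- the `j`-th term of the chain starting with `n` -/
def c (j n : ℕ) : ℕ := 2 ^ j * (n + 1) - 1

theorem c_add (j n : ℕ) : c j n + 1 = 2 ^ j * (n + 1) := by
  unfold c
  have : 1 ≤ 2 ^ j * (n + 1) := Nat.mul_pos (by positivity) (by omega)
  omega

theorem c_cast (j n : ℕ) : ((c j n : ℕ) : ℤ) = 2 ^ j * ((n : ℤ) + 1) - 1 := by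
  have h : ((c j n + 1 : ℕ) : ℤ) = ((2 ^ j * (n + 1) : ℕ) : ℤ) := by rw [c_add]
  push_cast at h
  linarith

theorem c_ge (j n : ℕ) : n ≤ c j n := by
  have h := c_add j n
  have h1 : 1 * (n + 1) ≤ 2 ^ j * (n + 1) := Nat.mul_le_mul_right _ Nat.one_le_two_pow
  omega

/-- `c_j(m t + b)` is a linear form in `t` -/
theorem c_lin (j m b t : ℕ) : ((c j (m * t + b) : ℕ) : ℤ) = ((2 ^ j * m : ℕ) : ℤ) * t + ((c j b : ℕ) : ℤ) := by
  rw [c_cast, c_cast]
  push_cast
  ring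

theorem c_odd {j : ℕ} (hj : j ≠ 0) (n : ℕ) : ¬ 2 ∣ c j n := by
  have h := c_add j n
  obtain ⟨i, rfl⟩ := Nat.exists_eq_succ_of_ne_zero hj
  rw [Nat.succ_eq_add_one, pow_succ] at h
  intro hd
  have h1 : 2 ∣ 2 ^ i * 2 * (n + 1) := ⟨2 ^ i * (n + 1), by ring⟩
  rw [← h] at h1
  have := (Nat.dvd_add_right hd).1 h1
  omega

theorem c_cop (j m b : ℕ) (h : (c j b).Coprime m) : Nat.Coprime (2 ^ j * m) (c j b) := by
  apply Nat.Coprime.mul_left _ h.symm
  rcases Nat.eq_zero_or_pos j with hj | hj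
  · rw [hj, pow_zero]
    exact Nat.coprime_one_left _
  · apply Nat.Coprime.pow_left
    rw [Nat.prime_two.coprime_iff_not_dvd]
    exact c_odd (by omega) b

theorem c_inj {j j' m b h h' : ℕ} (hm : 0 < m) (h1 : 2 ^ j * m = 2 ^ j' * m) (h2 : c j (b + h) = c j' (b + h')) :
    j = j' ∧ h = h' := by
  have h3 : j = j' := by
    have := Nat.eq_of_mul_eq_mul_right hm h1
    exact Nat.pow_right_injective (le_refl 2) this
  subst h3
  refine ⟨rfl, ?_⟩
  have h4 := c_add j (b + h)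
  rw [h2, c_add] at h4
  have h5 := Nat.eq_of_mul_eq_mul_left (by positivity) h4
  omega

/-- a product of numbers which are at least `y` -/
theorem pow_le_prod {y : ℝ} (hy : 0 ≤ y) : ∀ l : List ℕ, (∀ x ∈ l, y ≤ x) → y ^ l.length ≤ ((l.prod : ℕ) : ℝ)
  | [], _ => by simp
  | x :: l, h => by
    have h1 := pow_le_prod hy l fun z hz => h z (List.mem_cons_of_mem _ hz)
    have h2 := h x List.mem_cons_self
    rw [List.length_cons, List.prod_cons, Nat.cast_mul, pow_succ, mul_comm]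
    exact mul_le_mul h2 h1 (by positivity) (Nat.cast_nonneg _)

/-- the number of the prime factors -/
theorem len_le {x N : ℕ} {δ : ℝ} (hδ : 0 < δ) (hN : 2 ≤ N) (hx0 : x ≠ 0) (hx : (x : ℝ) ≤ (N : ℝ) ^ 2)
    (h : ∀ p : ℕ, p.Prime → p ∣ x → (N : ℝ) ^ δ < p) : x.primeFactorsList.length ≤ ⌈2 / δ⌉₊ := by
  have hN1 : (1 : ℝ) < N := by exact_mod_cast hN
  have h1 : ((N : ℝ) ^ δ) ^ x.primeFactorsList.length ≤ ((x.primeFactorsList.prod : ℕ) : ℝ) := by
    apply pow_le_prod (by positivity)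
    intro p hp
    exact (h p (Nat.prime_of_mem_primeFactorsList hp) (Nat.dvd_of_mem_primeFactorsList hp)).le
  rw [Nat.prod_primeFactorsList hx0, ← Real.rpow_natCast, ← Real.rpow_mul (by positivity)] at h1
  have h2 : (N : ℝ) ^ (δ * x.primeFactorsList.length) ≤ (N : ℝ) ^ (2 : ℝ) := by
    rw [Real.rpow_two]
    exact h1.trans hx
  have h3 := (Real.rpow_le_rpow_left_iff hN1).1 h2
  have h4 : (x.primeFactorsList.length : ℝ) ≤ 2 / δ := by
    rw [le_div_iff₀ hδ]
    linarith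
  exact_mod_cast h4.trans (Nat.le_ceil _)

/-- the local condition -/
theorem loc {T K : ℕ} (v h : Fin T → Fin K → ℕ) (m b : ℕ)
    (hadm : ∀ p : ℕ, p.Prime → p ≤ T * K → ∃ r : ℕ, ∀ g i, ¬ p ∣ c (v g i) (r + h g i))
    (hcop : ∀ g i, (c (v g i) (b + h g i)).Coprime m) (p : ℕ) (hp : p.Prime) (hpk : p ≤ T * K) :
    ∃ r : ℤ, ∀ g i, ¬ (p : ℤ) ∣ ((2 ^ v g i * m : ℕ) : ℤ) * r + ((c (v g i) (b + h g i) : ℕ) : ℤ) := by
  by_cases hpm : p ∣ m
  · refine ⟨0, fun g i hd => ?_⟩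
    rw [mul_zero, zero_add, Int.natCast_dvd_natCast] at hd
    have h1 := Nat.dvd_gcd hd hpm
    rw [Nat.Coprime.gcd_eq_one (hcop g i)] at h1
    exact hp.one_lt.ne' (Nat.dvd_one.1 h1)
  · obtain ⟨r, hr⟩ := hadm p hp hpk
    have hcm : IsCoprime (m : ℤ) (p : ℤ) := by
      rw [Nat.isCoprime_iff_coprime]
      exact ((Nat.Prime.coprime_iff_not_dvd hp).2 hpm).symm
    obtain ⟨u, w, huw⟩ := hcm
    refine ⟨u * ((r : ℤ) - b), fun g i hd => hr g i ?_⟩
    rw [← Int.natCast_dvd_natCast]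
    have e : ((c (v g i) (r + h g i) : ℕ) : ℤ) = ((2 ^ v g i * m : ℕ) : ℤ) * (u * ((r : ℤ) - b)) +
        ((c (v g i) (b + h g i) : ℕ) : ℤ) + p * (2 ^ v g i * w * ((r : ℤ) - b)) := by
      rw [c_cast, c_cast]
      push_cast
      linear_combination (2 ^ v g i * ((r : ℤ) - b)) * (-huw)
    rw [e]
    exact dvd_add hd (Dvd.intro _ rfl)

theorem transfer {P : ℕ → Prop} (hP : ∀ᶠ N : ℕ in atTop, P N) (m b : ℕ) (hm : 0 < m) :
    ∀ᶠ N : ℕ in atTop, P ((N - b) / m) := by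
  have h1 : Tendsto (fun N : ℕ => (N - b) / m) atTop atTop := by
    apply tendsto_atTop.2
    intro a
    filter_upwards [eventually_ge_atTop (a * m + b)] with N hN
    rw [Nat.le_div_iff_mul_le hm]
    omega
  exact h1.eventually hP

/-- `N` and `N' = (N - b) / m` -/
theorem scale (m b : ℕ) (hm : 0 < m) : ∀ᶠ N : ℕ in atTop, m * ((N - b) / m) + b ≤ N ∧ N ≤ 2 * m * ((N - b) / m) ∧
    (N - b) / m ≤ N ∧ 0 < (N - b) / m ∧ Real.log ((N - b) / m : ℕ) ≤ Real.log N ∧
    Real.log N / 2 ≤ Real.log ((N - b) / m : ℕ) ∧ 2 * (m : ℝ) ≤ Real.log N := by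
  have hmr : (0 : ℝ) < m := by exact_mod_cast hm
  have hev1 : ∀ᶠ N : ℕ in atTop, (2 * m + b + 16 : ℝ) ≤ Real.log N :=
    (Real.tendsto_log_atTop.comp tendsto_natCast_atTop_atTop).eventually_ge_atTop _
  filter_upwards [hev1, eventually_ge_atTop (2 * b + 4 * m + 16)] with N hlog hNB
  obtain ⟨N', hN'⟩ : ∃ N', N' = (N - b) / m := ⟨_, rfl⟩
  rw [← hN']
  have hN0 : (0 : ℝ) < N := by exact_mod_cast (by omega : 0 < N)
  have hbr : (0 : ℝ) ≤ b := Nat.cast_nonneg b
  have hmN' : m * N' + b ≤ N := by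
    have h1 : m * N' ≤ N - b := by rw [hN']; exact Nat.mul_div_le _ _
    omega
  have hN'low : N ≤ 2 * m * N' := by
    have h1 : N - b < m * (N' + 1) := by rw [hN']; exact Nat.lt_mul_div_succ (N - b) hm
    have h2 : m * (N' + 1) = m * N' + m := by ring
    have h3 : 2 * m * N' = 2 * (m * N') := by ring
    omega
  have hN'N : N' ≤ N := by rw [hN']; exact (Nat.div_le_self _ _).trans (Nat.sub_le _ _)
  have hN'pos : 0 < N' := by
    rcases Nat.eq_zero_or_pos N' with h0 | h0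
    · rw [h0] at hN'low
      omega
    · exact h0
  have hN'r : (0 : ℝ) < N' := by exact_mod_cast hN'pos
  have hlow' : (N : ℝ) ≤ 2 * m * N' := by exact_mod_cast hN'low
  refine ⟨hmN', hN'low, hN'N, hN'pos, Real.log_le_log hN'r (by exact_mod_cast hN'N), ?_, by linarith⟩
  have h1 : Real.log N ≤ Real.log (2 * m) + Real.log N' := by
    rw [← Real.log_mul (by positivity) hN'r.ne']
    exact Real.log_le_log hN0 hlow'
  have h2 : 2 * Real.log (2 * m) ≤ Real.log N := by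
    have h3 : ((2 * m : ℝ)) ^ 2 ≤ N := by
      have h4 : (2 * m : ℝ) ^ 2 ≤ Real.exp (2 * m) * 2 := by
        have := Real.quadratic_le_exp_of_nonneg (show (0 : ℝ) ≤ 2 * m by positivity)
        nlinarith
      have h5 : Real.exp (2 * m) * 2 ≤ Real.exp (2 * m + b + 16) := by
        have : (2 : ℝ) ≤ Real.exp (b + 16) := by
          have := Real.add_one_le_exp (b + 16 : ℝ)
          linarith
        calc Real.exp (2 * m) * 2 ≤ Real.exp (2 * m) * Real.exp (b + 16) := by gcongr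
          _ = _ := by rw [← Real.exp_add]; congr 1; ring
      have h6 : Real.exp (2 * m + b + 16) ≤ N := by
        rw [← Real.le_log_iff_exp_le hN0]
        exact hlog
      linarith
    calc 2 * Real.log (2 * m) = Real.log ((2 * m : ℝ) ^ 2) := by rw [Real.log_pow]; norm_num
      _ ≤ Real.log N := Real.log_le_log (by positivity) h3
  linarith

end Pool.Agent.W5h28.CC
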