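import Pool.Agent.W5h28.CC.Base
import Pool.Agent.Y827.RO.NarG

/-! Chains `n, 2 n + 1, 4 n + 3, ...` all of whose terms are almost primes and many of whose terms are primes, in
narrow progressions. -/

set_option autoImplicit false

namespace Pool.Agent.W5h28.CC

open Finset Filter Topology
open Pool.Agent.Y827.GS
open Pool.Agent.Y827.RO

/-- at most `R` prime factors, all larger than `y` -/
def AP (R : ℕ) (y : ℝ) (x : ℕ) : Prop := x.primeFactorsList.length ≤ R ∧ ∀ p : ℕ, p.Prime → p ∣ x → y < p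

/-- the numbers `c_v(n + h)` are almost primes and exactly those in `E` are primes -/
def Good {T K : ℕ} (v h : Fin T → Fin K → ℕ) (E : Finset (Fin T × Fin K)) (R : ℕ) (y : ℝ) (n : ℕ) : Prop :=
  ∀ g i, AP R y (c (v g i) (n + h g i)) ∧ ((c (v g i) (n + h g i)).Prime ↔ (g, i) ∈ E)

section
variable {T K : ℕ} (v h : Fin T → Fin K → ℕ) (m b : ℕ)

/-- the linear forms -/
def HH (g : Fin T) (i : Fin K) : ℤ × ℤ := (((2 ^ v g i * m : ℕ) : ℤ), ((c (v g i) (b + h g i) : ℕ) : ℤ))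

theorem HH_val (g : Fin T) (i : Fin K) (t : ℕ) :
    (HH v h m b g i).1 * (t : ℤ) + (HH v h m b g i).2 = ((c (v g i) (m * t + b + h g i) : ℕ) : ℤ) := by
  unfold HH
  rw [add_assoc (m * t), c_lin]

end

theorem gen (T M : ℕ) (hT : 1 ≤ T) (hTM : 18 * M < 5 * T) : ∃ (K R : ℕ) (δ : ℝ), 1 ≤ K ∧ 0 < δ ∧
    ∀ v h : Fin T → Fin K → ℕ, (Function.Injective fun x : Fin T × Fin K => (v x.1 x.2, h x.1 x.2)) →
    (∀ p : ℕ, p.Prime → p ≤ T * K → ∃ r : ℕ, ∀ g i, ¬ p ∣ c (v g i) (r + h g i)) →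
    ∀ m b : ℕ, 0 < m → (∀ g i, (c (v g i) (b + h g i)).Coprime m) →
    ∃ κ : ℝ, 0 < κ ∧ ∀ L : ℕ, ∃ C : ℕ, ∀ᶠ N : ℕ in atTop, ∃ (E : Finset (Fin T × Fin K)) (d : ℕ),
      M < (E.image Prod.fst).card ∧ 1 ≤ d ∧ (d : ℝ) ≤ Real.log N ^ C ∧
      (∃ S : Finset ℕ, S ⊆ Icc 1 N ∧ (∀ n ∈ S, n ≡ b [MOD m] ∧ Good v h E R ((N : ℝ) ^ δ) n) ∧
        κ * (N / Real.log N ^ (T * K + 1)) ≤ S.card) ∧
      ∃ S : Finset ℕ, S ⊆ Icc 1 N ∧ (∀ n ∈ S, ∀ l < L, n + l * d ≤ N ∧ n + l * d ≡ b [MOD m] ∧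
        Good v h E R ((N : ℝ) ^ δ) (n + l * d)) ∧ (N : ℝ) / Real.log N ^ C ≤ S.card := by
  classical
  obtain ⟨K, hK, δ, hδ, H0⟩ := lamE0 T M hT (by
    have : ((18 * M : ℕ) : ℝ) < ((5 * T : ℕ) : ℝ) := by exact_mod_cast hTM
    push_cast at this
    linarith)
  refine ⟨K, ⌈2 / (δ / 2)⌉₊, δ / 2, hK, by positivity, fun v h hinj hadm m b hm hcop => ?_⟩
  set H : Fin T → Fin K → ℤ × ℤ := HH v h m b with hH
  have hval : ∀ g i (t : ℕ), (H g i).1 * (t : ℤ) + (H g i).2 = ((c (v g i) (m * t + b + h g i) : ℕ) : ℤ) :=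
    fun g i t => HH_val v h m b g i t
  have hinj' : Function.Injective (fun x : Fin T × Fin K => H x.1 x.2) := by
    intro x y hxy
    have h1 : ((2 ^ v x.1 x.2 * m : ℕ) : ℤ) = ((2 ^ v y.1 y.2 * m : ℕ) : ℤ) := congrArg Prod.fst hxy
    have h2 : ((c (v x.1 x.2) (b + h x.1 x.2) : ℕ) : ℤ) = ((c (v y.1 y.2) (b + h y.1 y.2) : ℕ) : ℤ) :=
      congrArg Prod.snd hxy
    have h1' : 2 ^ v x.1 x.2 * m = 2 ^ v y.1 y.2 * m := by exact_mod_cast h1
    have h2' : c (v x.1 x.2) (b + h x.1 x.2) = c (v y.1 y.2) (b + h y.1 y.2) := by exact_mod_cast h2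
    obtain ⟨h3, h4⟩ := c_inj hm h1' h2'
    exact hinj (Prod.ext h3 h4)
  have hpos : ∀ g i, 0 < (H g i).1 ∧ IsCoprime (H g i).1 (H g i).2 := by
    intro g i
    refine ⟨?_, ?_⟩
    · show (0 : ℤ) < ((2 ^ v g i * m : ℕ) : ℤ)
      exact_mod_cast Nat.mul_pos (by positivity) hm
    · show IsCoprime ((2 ^ v g i * m : ℕ) : ℤ) ((c (v g i) (b + h g i) : ℕ) : ℤ)
      rw [Nat.isCoprime_iff_coprime]
      exact c_cop _ _ _ (hcop g i)
  have hloc : ∀ p : ℕ, p.Prime → p ≤ T * K → ∃ r : ℤ, ∀ g i, ¬ (p : ℤ) ∣ (H g i).1 * r + (H g i).2 :=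
    fun p hp hpk => loc v h m b hadm hcop p hp hpk
  obtain ⟨A, hA⟩ := adf_ev (univ.image (fun x : Fin T × Fin K => H x.1 x.2)) (by
    intro f hf
    obtain ⟨x, -, rfl⟩ := mem_image.1 hf
    exact hpos x.1 x.2)
  obtain ⟨s₀, κ, hκ, H1⟩ := H0 A
  have hmr : (0 : ℝ) < m := by exact_mod_cast hm
  refine ⟨κ / (2 * m), by positivity, fun L => ?_⟩
  obtain ⟨C, hC⟩ := narGen H hinj' hpos δ κ hδ hκ s₀ (max L 2) (le_max_right _ _)
  refine ⟨C + 1, ?_⟩
  -- size of the values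
  obtain ⟨B, hB⟩ : ∃ B : ℕ, ∀ g i, 2 ^ v g i * (h g i + 2) ≤ B := by
    refine ⟨∑ x : Fin T × Fin K, 2 ^ v x.1 x.2 * (h x.1 x.2 + 2), fun g i => ?_⟩
    exact single_le_sum (f := fun x : Fin T × Fin K => 2 ^ v x.1 x.2 * (h x.1 x.2 + 2))
      (fun _ _ => Nat.zero_le _) (mem_univ (g, i))
  filter_upwards [transfer (H1.and (hA.and hC)) m b hm, scale m b hm, eventually_ge_atTop (B + 16)]
    with N hN hsc hNB
  obtain ⟨hN1, hAN, hCN⟩ := hN
  obtain ⟨hmN', hN'low, hN'N, hN'pos, hlogle, hlogge, hlogm⟩ := hsc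
  set N' : ℕ := (N - b) / m with hN'
  have hN0 : (0 : ℝ) < N := by exact_mod_cast (by omega : 0 < N)
  have hN2 : 2 ≤ N := by omega
  have hm1 : (1 : ℝ) ≤ m := by exact_mod_cast hm
  have hlog1 : 1 ≤ Real.log N := by linarith
  have hN'r : (0 : ℝ) < N' := by exact_mod_cast hN'pos
  have hlow' : (N : ℝ) ≤ 2 * m * N' := by exact_mod_cast hN'low
  have hlogp : 0 < Real.log N' := by linarith
  -- the exact set
  obtain ⟨s, E, hs, hs1, hs2, hE, hcard⟩ := hN1 H hinj'
    (fun g i => hAN _ (mem_image.2 ⟨(g, i), mem_univ _, rfl⟩)) hloc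
  -- points of the good set
  have hgood : ∀ t ∈ Re H δ s E N', (N' : ℝ) / 16 ≤ t ∧ t ≤ N' ∧ 1 ≤ t ∧ m * t + b ≤ N ∧ m * t + b ≡ b [MOD m] ∧
      Good v h E ⌈2 / (δ / 2)⌉₊ ((N : ℝ) ^ (δ / 2)) (m * t + b) := by
    intro t ht
    unfold Re at ht
    obtain ⟨h4, h5, h6, h7, h8⟩ := mem_filter.1 ht
    rw [mem_Icc] at h4
    have h9 : m * t + b ≤ N := (Nat.add_le_add_right (Nat.mul_le_mul_left m h4.2) b).trans hmN'
    refine ⟨h5, h4.2, h4.1, h9, ?_, fun g i => ?_⟩
    · show (m * t + b) % m = b % m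
      rw [Nat.mul_add_mod]
    · have hv := hval g i t
      have hpr : ∀ p : ℕ, p.Prime → p ∣ c (v g i) (m * t + b + h g i) → (N : ℝ) ^ (δ / 2) < p := by
        intro p hp hpd
        have h10 := h7 g i p hp
        rw [hv, Int.natCast_dvd_natCast] at h10
        have h11 : ¬ Real.log p ≤ δ * Real.log N' := fun h => h10 h hpd
        rw [not_le] at h11
        have hp0 : (0 : ℝ) < p := by exact_mod_cast hp.pos
        rw [Real.rpow_def_of_pos hN0, ← Real.lt_log_iff_exp_lt hp0]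
        have : δ / 2 * Real.log N ≤ δ * Real.log N' := by nlinarith
        linarith
      refine ⟨⟨?_, hpr⟩, ?_⟩
      · apply len_le (by positivity) hN2 _ _ hpr
        · have := c_ge (v g i) (m * t + b + h g i)
          have : 0 < m * t := Nat.mul_pos hm h4.1
          omega
        · have h12 := c_add (v g i) (m * t + b + h g i)
          have h13 : 2 ^ v g i * (m * t + b + h g i + 1) ≤ N * (2 ^ v g i * (h g i + 2)) := by
            have h14 : m * t + b + h g i + 1 ≤ N * (h g i + 2) := by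
              have : N * (h g i + 2) = N * h g i + N + N := by ring
              have h15 : 1 * h g i ≤ N * h g i := Nat.mul_le_mul_right _ (by omega)
              omega
            calc 2 ^ v g i * (m * t + b + h g i + 1) ≤ 2 ^ v g i * (N * (h g i + 2)) := Nat.mul_le_mul_left _ h14
              _ = _ := by ring
          have h16 : c (v g i) (m * t + b + h g i) ≤ N * N := by
            have h17 : N * (2 ^ v g i * (h g i + 2)) ≤ N * N :=
              Nat.mul_le_mul_left _ ((hB g i).trans (by omega))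
            omega
          rw [pow_two]
          exact_mod_cast h16
      · have h18 := h8 g i
        rw [hv, Int.toNat_natCast] at h18
        exact h18
  obtain ⟨d, hd1, hd2, hd3⟩ := hCN s hs ⟨hs1, hs2⟩ (Re H δ s E N') (by
    intro t ht
    obtain ⟨h4, h5, h6, -⟩ := hgood t ht
    unfold Re at ht
    obtain ⟨-, -, h7, h8, -⟩ := mem_filter.1 ht
    exact ⟨h6, h5, h4, h7, h8⟩) hcard
  have hminj : Function.Injective (fun t : ℕ => m * t + b) := by
    intro t t' htt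
    have : m * t = m * t' := by
      simp only at htt
      omega
    exact Nat.eq_of_mul_eq_mul_left hm this
  have hpow : ∀ e : ℕ, Real.log N' ^ e ≤ Real.log N ^ e := fun e => pow_le_pow_left₀ hlogp.le hlogle e
  refine ⟨E, m * d, hE, Nat.mul_pos hm hd1, ?_, ?_, ?_⟩
  · push_cast
    calc (m : ℝ) * d ≤ Real.log N * Real.log N ^ C := by
          apply mul_le_mul (by linarith) (hd2.trans (hpow C)) (Nat.cast_nonneg _) (by linarith)
      _ = _ := by ring
  · refine ⟨(Re H δ s E N').image (fun t => m * t + b), ?_, ?_, ?_⟩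
    · intro n hn
      obtain ⟨t, ht, rfl⟩ := mem_image.1 hn
      obtain ⟨-, -, h6, h7, -⟩ := hgood t ht
      have : 0 < m * t := Nat.mul_pos hm h6
      rw [mem_Icc]
      exact ⟨by omega, h7⟩
    · intro n hn
      obtain ⟨t, ht, rfl⟩ := mem_image.1 hn
      obtain ⟨-, -, -, -, h8, h9⟩ := hgood t ht
      exact ⟨h8, h9⟩
    · rw [card_image_of_injective _ hminj]
      refine le_trans ?_ hcard
      calc κ / (2 * m) * (N / Real.log N ^ (T * K + 1)) = κ * ((N / (2 * m)) / Real.log N ^ (T * K + 1)) := by ring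
        _ ≤ κ * (N' / Real.log N' ^ (T * K + 1)) := by
          apply mul_le_mul_of_nonneg_left _ hκ.le
          apply div_le_div₀ hN'r.le _ (by positivity) (hpow _)
          rw [div_le_iff₀ (by positivity)]
          linarith
  · refine ⟨((Icc 1 N').filter (fun u : ℕ => ∀ j < max L 2, u + j * d ∈ Re H δ s E N')).image
      (fun t => m * t + b), ?_, ?_, ?_⟩
    · intro n hn
      obtain ⟨t, ht, rfl⟩ := mem_image.1 hn
      obtain ⟨h5, h6⟩ := mem_filter.1 ht
      rw [mem_Icc] at h5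
      have : 0 < m * t := Nat.mul_pos hm h5.1
      have h7 : m * t ≤ m * N' := Nat.mul_le_mul_left m h5.2
      rw [mem_Icc]
      exact ⟨by omega, by omega⟩
    · intro n hn l hl
      obtain ⟨t, ht, rfl⟩ := mem_image.1 hn
      obtain ⟨h5, h6⟩ := mem_filter.1 ht
      obtain ⟨-, -, -, h7, h8, h9⟩ := hgood _ (h6 l (lt_of_lt_of_le hl (le_max_left _ _)))
      have e : m * t + b + l * (m * d) = m * (t + l * d) + b := by ring
      rw [e]
      exact ⟨h7, h8, h9⟩
    · rw [card_image_of_injective _ hminj]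
      refine le_trans ?_ hd3
      have h10 : (N : ℝ) / (2 * m) ≤ N' := by
        rw [div_le_iff₀ (by positivity)]
        linarith
      calc (N : ℝ) / Real.log N ^ (C + 1) = (N / Real.log N) / Real.log N ^ C := by
            rw [pow_succ, div_div, mul_comm]
        _ ≤ (N / (2 * m)) / Real.log N ^ C := by
            apply div_le_div_of_nonneg_right _ (by positivity)
            apply div_le_div_of_nonneg_left hN0.le (by positivity)
            linarith
        _ ≤ N' / Real.log N' ^ C := div_le_div₀ hN'r.le h10 (by positivity) (hpow _)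

end Pool.Agent.W5h28.CC
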